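import Mathlib
import Pool.Agent.Helper55_QRay.Main

/-!
# Papasoglu's coarse characterisation of splittings over two-ended groups fails for finitely
generated groups

There is a finitely generated one-ended group `G` whose Cayley graph is coarsely separated by a
quasi-ray (so that statement (c) fails for `G`) and by a quasiline, although `G` does not split over
a virtually infinite cyclic subgroup and is not virtually a surface group (so that statement (b)
fails for `G`).

The group is `G = A *_E (E × ℤ)` (realised as the semidirect product of the free group on `A / E`
with `A`), where `A` is the finitely generated group of quadruples `(x, y, c, n)`, with `x, y, c`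
Laurent polynomials over the field with two elements, `n` an integer and product
`(x, y, c, n) (x', y', c', n') = (x + T^(-n) x', y + T^n y', c + c' + x T^n y', n + n')`,
and `E` is the infinite central subgroup of the elements `(0, 0, c, 0)` such that all exponents
occurring in `c` are powers of four.

Conventions: the Cayley graph is used with its vertex set and its path metric.  The quasi-ray and
the quasiline consist of vertices; for a set `Y` of vertices and an integer `r ≥ 1` the components
of the complement of the `r`-neighbourhood of `Y` in the metric graph that contain a vertex are the
components computed here on the vertices.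
-/

namespace Pool.Agent.Results.MP_a3d4fe_al.NegativeAnswer

open Pool.Agent.Helper55.QRay

universe w

/-- There is a one-ended finitely generated group violating both (b) and (c). -/
theorem result : ∃ (G : Type) (_ : Group G) (S : Finset G),
    Subgroup.closure (S : Set G) = ⊤ ∧
    OneEnded (cayleyGraph (S : Set G)) ∧
    (∃ Y : Set G, IsQuasiRay (cayleyGraph (S : Set G)) Y ∧
      CoarselySeparates (cayleyGraph (S : Set G)) Y) ∧
    (∃ Y : Set G, IsQuasiLine (cayleyGraph (S : Set G)) Y ∧
      CoarselySeparates (cayleyGraph (S : Set G)) Y) ∧
    (¬ ∃ H : Subgroup G, IsVirtuallyZ H ∧ SplitsOver.{0, w} G H) ∧
    ¬ IsVirtuallySurfaceGroup G :=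
  main.{w}

end Pool.Agent.Results.MP_a3d4fe_al.NegativeAnswer
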